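import Pool.Agent.H49.LAN.Stmts

/-! # Project LAN, module LOW -/

set_option autoImplicit false

open scoped BigOperators
open Finset

namespace LAN

private theorem low_iota_inj (p s : ℕ) [Fact p.Prime] (hs : 1 ≤ s) :
    Function.Injective (iota p s) := by
  intro a b h
  have hp : 0 < p := (Fact.out : p.Prime).pos
  have hlt : ∀ l : ZMod p, p ^ (s - 1) * l.val < p ^ s := by
    intro l
    have h1 : l.val < p := ZMod.val_lt l
    have h2 : p ^ s = p ^ (s - 1) * p := by
      rw [← pow_succ]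
      congr 1
      omega
    rw [h2]
    exact Nat.mul_lt_mul_of_pos_left h1 (pow_pos hp _)
  unfold iota at h
  rw [ZMod.natCast_eq_natCast_iff'] at h
  rw [Nat.mod_eq_of_lt (hlt a), Nat.mod_eq_of_lt (hlt b)] at h
  exact ZMod.val_injective p (Nat.eq_of_mul_eq_mul_left (pow_pos hp _) h)

private theorem low_two : ∃ x : (ZMod 3)ˣ, (x : ZMod 3) = 2 :=
  ⟨⟨2, 2, by decide, by decide⟩, rfl⟩

theorem low (h_OUT : OUTStmt) : LOWStmt := by
  classical
  intro p s _ W _ _ _ f n lam τ g hp2 hs h01 hDS hper hBS hp hg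
  subst hp
  subst hg
  obtain ⟨h1, h2, h3, h4, h5, h6⟩ := h_OUT 3 W _ _ τ 1 n (by norm_num) hBS
  have hcard : ((range (3 - 1)).filter (fun d => (1 : W) ^ d = 1)).card = 2 := by
    simp [one_pow]
  rw [hcard] at h2
  have hS : ∑ u, (f (iota 3 s 1) u - f (iota 3 s 0) u) ^ 2 = n := by
    have : (3 : ℤ) * ∑ u, (f (iota 3 s 1) u - f (iota 3 s 0) u) ^ 2 = 3 * n := by
      have h2' := h2
      push_cast at h2'
      linarith
    linarith
  -- the value at 2
  have hB2 : ∀ u, f (iota 3 s 2) u = f (iota 3 s 1) u := by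
    intro u
    obtain ⟨x, hx⟩ := low_two
    have hx2 : x⁻¹ ∈ Subgroup.zpowers τ := hBS.gen _
    rw [mem_zpowers_iff_mem_range_orderOf] at hx2
    obtain ⟨j, -, hj⟩ := Finset.mem_image.1 hx2
    have hr := hBS.rel j u
    rw [hj, inv_inv, hx] at hr
    simp only [one_pow, inv_one, mul_one, one_mul] at hr
    rw [hr]
    ring
  have hsum3 : ∀ F : ZMod 3 → ℤ, ∑ l, F l = F 0 + F 1 + F 2 := by
    intro F
    exact Fin.sum_univ_three F
  have hinj := low_iota_inj 3 s hs
  have hle : ∀ F : ZMod (3 ^ s) → ℤ, (∀ i, 0 ≤ F i) → ∑ l, F (iota 3 s l) ≤ ∑ i, F i := by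
    intro F hF
    rw [← Finset.sum_image (s := univ) (g := iota 3 s) (f := F) (fun a _ b _ h => hinj h)]
    exact Finset.sum_le_sum_of_subset_of_nonneg (Finset.subset_univ _) (fun i _ _ => hF i)
  have hpt : ∀ u, 3 * (f (iota 3 s 1) u - f (iota 3 s 0) u) ^ 2 +
      (f (iota 3 s 1) u - f (iota 3 s 0) u) ≤ 2 * ∑ i, f i u ∧
      3 * (f (iota 3 s 1) u - f (iota 3 s 0) u) ^ 2 -
      (f (iota 3 s 1) u - f (iota 3 s 0) u) ≤ 2 * ∑ i, (1 - f i u) := by
    intro u
    have e1 := hle (fun i => f i u) (fun i => by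
      rcases h01 i u with h | h <;> simp [h])
    have e2 := hle (fun i => 1 - f i u) (fun i => by
      rcases h01 i u with h | h <;> simp [h])
    rw [hsum3] at e1 e2
    simp only [hB2] at e1 e2
    rcases h01 (iota 3 s 0) u with h | h <;> rcases h01 (iota 3 s 1) u with h' | h' <;>
      rw [h, h'] at e1 e2 ⊢ <;> constructor <;> linarith
  have hv : (((3 ^ s * Fintype.card W : ℕ) : ℤ) - ∑ i, ∑ u, f i u) =
      ∑ u, ∑ i, (1 - f i u) := by
    rw [Finset.sum_comm]
    simp only [Finset.sum_sub_distrib, Finset.sum_const, Finset.card_univ, ZMod.card]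
    simp only [nsmul_eq_mul, mul_one]
    push_cast
    ring
  refine ⟨?_, ?_, ?_⟩
  · have := Finset.sum_le_sum (fun u (_ : u ∈ univ) => (hpt u).1)
    rw [Finset.sum_add_distrib, ← Finset.mul_sum, ← Finset.mul_sum, hS] at this
    rw [Finset.sum_comm]
    exact this
  · have := Finset.sum_le_sum (fun u (_ : u ∈ univ) => (hpt u).2)
    rw [Finset.sum_sub_distrib, ← Finset.mul_sum, ← Finset.mul_sum, hS] at this
    rw [hv]
    exact this
  · rw [← hS]
    calc ∑ u, (f (iota 3 s 1) u - f (iota 3 s 0) u) ^ 2 ≤ ∑ _u : W, (1 : ℤ) := by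
          refine Finset.sum_le_sum fun u _ => ?_
          rcases h4 u with h | h | h <;> simp only [h] <;> norm_num
      _ = Fintype.card W := by simp

end LAN
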