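import Pool.Agent.H49.LAN.Stmts

/-! # Project LAN, module RNU -/

set_option autoImplicit false

open scoped BigOperators
open Finset

namespace LAN

private theorem rnu_card {W : Type} [CommGroup W] [Fintype W] [DecidableEq W] (g : W) (o r : ℕ)
    (ho : orderOf g = o) (ho0 : 0 < o) :
    ((range (o * r)).filter (fun d => g ^ d = 1)).card = r := by
  have h1 : (range (o * r)).filter (fun d => g ^ d = 1) = (range r).image (fun i => o * i) := by
    ext d
    simp only [mem_filter, mem_range, mem_image]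
    constructor
    · rintro ⟨hd, h⟩
      obtain ⟨i, rfl⟩ : o ∣ d := by
        rw [← ho]
        exact orderOf_dvd_of_pow_eq_one h
      exact ⟨i, Nat.lt_of_mul_lt_mul_left hd, rfl⟩
    · rintro ⟨i, hi, rfl⟩
      refine ⟨Nat.mul_lt_mul_of_pos_left hi ho0, ?_⟩
      rw [pow_mul, ← ho, pow_orderOf_eq_one, one_pow]
  rw [h1, card_image_of_injective _ (fun a b h => Nat.eq_of_mul_eq_mul_left ho0 h), card_range]

theorem rnu : RNUStmt := by
  intro p _ W _ _ _ g hp2 hg
  obtain ⟨r, hr⟩ := orderOf_dvd_of_pow_eq_one hg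
  have ho0 : 0 < orderOf g := orderOf_pos g
  have hc := rnu_card g (orderOf g) r rfl ho0
  rw [hr, hc]
  refine ⟨⟨orderOf g, by ring⟩, fun h1 => ?_⟩
  rw [h1, mul_one] at hr
  have h2 : 2 ∣ orderOf g := by
    rw [← hr]
    obtain ⟨k, hk⟩ := (Fact.out : p.Prime).odd_of_ne_two hp2
    exact ⟨k, by omega⟩
  exact h2.trans (orderOf_dvd_card)

end LAN
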